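import Pool.Agent.P.MP_eb61da_co.GapD

/-! The clone packing constant is bounded away from `1`, uniformly over all convex figures. -/

open Pool.Agent.P.MP_eb61da_co

theorem Pool.Agent.Results.MP_eb61da_co.LowerGap.result :
    ∃ c : ℝ, 0 < c ∧ ∀ (F : Set Plane) (S : ℝ), IsConvexFigure F → ClonesPack F S → 1 + c ≤ S :=
  Gap.gap
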