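import Pool.Agent.P.MP_eb61da_co.RxKA
import Pool.Agent.P.MP_eb61da_co.RxRA
import Pool.Agent.P.MP_eb61da_co.RxLG
import Pool.Agent.P.MP_eb61da_co.RxPB

/-! No rectangle minimises the clone packing constant: a parallelogram does better. -/

open Pool.Agent.P.MP_eb61da_co

theorem Pool.Agent.Results.MP_eb61da_co.NoRectangle.result :
    ∃ F : Set Plane,
      F = {v | v 0 - 24 / 7 * v 1 ∈ Set.Icc (0 : ℝ) 1.19567 ∧ 25 / 7 * v 1 ∈ Set.Icc (0 : ℝ) 1} ∧
      IsConvexFigure F ∧ ClonesPack F (2 / 1.19567 ^ 2) ∧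
      ∀ a b S : ℝ, 0 < b → b ≤ a → ClonesPack (rect a b) S → 2 / 1.19567 ^ 2 < S := by
  have e : (1.19567 : ℝ) = 119567 / 100000 := by norm_num
  have hρ : RX.Rh (119567 / 100000) := ⟨by norm_num, by norm_num⟩
  rw [e]
  refine ⟨RX.pbox 0 0 (119567 / 100000) 1, ?_, RX.pbox_figure (by norm_num),
    RX.par_pack rfl (RX.root_rg hρ (RX.good_all hρ RX.all_tb)), fun a b S hb hab H => ?_⟩
  · simp only [RX.pbox, RX.ca, RX.cb, zero_add]
  · obtain ⟨r, h1, h2, h3⟩ := RX.exists_root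
    exact (RX.root_lt h1 h2 h3).trans_le (RX.lower h1 h2 h3 hb hab H).1
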