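import Pool.Agent.P.MP_eb61da_co.RxKA
import Pool.Agent.P.MP_eb61da_co.RxRA
import Pool.Agent.P.MP_eb61da_co.RxSL

/-! The minimum of the clone packing constant over all rectangles, and the unique minimiser. -/

open Pool.Agent.P.MP_eb61da_co

theorem Pool.Agent.Results.MP_eb61da_co.RectMin.result :
    ∃ r : ℝ, 1.1956 ≤ r ∧ r ≤ 1.1957 ∧ r ^ 4 - 6 * r ^ 3 + r ^ 2 + 4 * r + 2 = 0 ∧
      IsConvexFigure (rect r 1) ∧ ClonesPack (rect r 1) (2 / r ^ 2) ∧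
      ∀ a b S : ℝ, 0 < b → b ≤ a → ClonesPack (rect a b) S →
        2 / r ^ 2 ≤ S ∧ (S = 2 / r ^ 2 → a = r * b) := by
  obtain ⟨r, h1, h2, h3⟩ := RX.exists_root
  refine ⟨r, by linarith, by linarith, h3, rect_figure (by linarith) one_pos, ?_,
    fun a b S hb hab H => RX.lower h1 h2 h3 hb hab H⟩
  exact RX.pack_of_RG h1 h2 h3 (RX.root_rg ⟨h1, h2⟩ (RX.good_all ⟨h1, h2⟩ RX.all_tb))
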